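import Pool.Agent.Y476.RM.Stm

/-!
Lusin type property for the sections of an integrable function.
-/

set_option autoImplicit false
open MeasureTheory Filter Topology
open scoped ENNReal BoundedContinuousFunction

namespace Pool.Agent.Y353.HM

open Pool.Agent.Y476.RM

theorem t : S_LUSIN := by
  intro X Y _ _ _ _ _ _ _ _ ν ν' _ _ f hf hfin δ hδ
  set F : X × Y → ℝ := fun p => (Function.uncurry f p).toReal with hF
  have hFm : Measurable F := hf.ennreal_toReal
  have hFi : Integrable F (ν.prod ν') := integrable_toReal_of_lintegral_ne_top hf.aemeasurable hfin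
  set w : ℕ → ℝ≥0∞ := fun j => (2 : ℝ≥0∞)⁻¹ ^ j with hw
  have hw0 : ∀ j, w j ≠ 0 := fun j => pow_ne_zero _ (by simp)
  have hwt : ∀ j, w j ≠ ∞ := fun j => ENNReal.pow_ne_top (by simp)
  have hε : ∀ j : ℕ, δ * w (j + 1) * w j ≠ 0 := fun j =>
    mul_ne_zero (mul_ne_zero hδ.ne' (hw0 _)) (hw0 _)
  have hc : ∀ j : ℕ, ∃ g : (X × Y) →ᵇ ℝ,
      ∫⁻ p, ‖F p - g p‖ₑ ∂(ν.prod ν') ≤ δ * w (j + 1) * w j := by
    intro j
    obtain ⟨g, hg, _⟩ := hFi.exists_boundedContinuous_lintegral_sub_le (hε j)
    exact ⟨g, hg⟩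
  choose c hc using hc
  have hm : ∀ j, Measurable (fun p : X × Y => ‖F p - c j p‖ₑ) := fun j =>
    (hFm.sub (c j).continuous.measurable).enorm
  set D : ℕ → X → ℝ≥0∞ := fun j x => ∫⁻ y, ‖F (x, y) - c j (x, y)‖ₑ ∂ν' with hD
  have hDm : ∀ j, Measurable (D j) := fun j => (hm j).lintegral_prod_right'
  have hDi : ∀ j, ∫⁻ x, D j x ∂ν ≤ δ * w (j + 1) * w j := by
    intro j
    have h := lintegral_prod (μ := ν) (ν := ν') _ (hm j).aemeasurable
    simp only [hD]
    rw [← h]
    exact hc j
  have hBad : ∀ j, ν {x | w j ≤ D j x} ≤ δ * w (j + 1) := by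
    intro j
    refine le_trans (meas_ge_le_lintegral_div (hDm j).aemeasurable (hw0 j) (hwt j)) ?_
    refine le_trans (ENNReal.div_le_div_right (hDi j) _) ?_
    rw [ENNReal.mul_div_cancel_right (hw0 j) (hwt j)]
  set S : Set X := {x | ∫⁻ y, f x y ∂ν' = ∞} with hS
  have hSm' : Measurable (fun x => ∫⁻ y, f x y ∂ν') := hf.lintegral_prod_right'
  have hSm : MeasurableSet S := hSm' (measurableSet_singleton ∞)
  have hS0 : ν S = 0 := by
    have h1 := lintegral_prod (μ := ν) (ν := ν') _ hf.aemeasurable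
    rw [h1] at hfin
    have h2 := ae_lt_top hSm' hfin
    have h3 : ν {x | ¬ (∫⁻ y, f x y ∂ν') < ∞} = 0 := h2
    refine le_antisymm (le_trans (measure_mono ?_) h3.le) bot_le
    intro x hx
    show ¬ (∫⁻ y, f x y ∂ν') < ∞
    rw [not_lt, top_le_iff]
    exact hx
  set B : Set X := ⋃ j, {x | w j ≤ D j x} with hB
  have hBm : MeasurableSet B := MeasurableSet.iUnion fun j => measurableSet_le measurable_const (hDm j)
  have hB0 : ν B ≤ δ := by
    refine le_trans (measure_iUnion_le _) (le_trans (ENNReal.tsum_le_tsum hBad) ?_)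
    rw [ENNReal.tsum_mul_left]
    have h1 : ∑' j : ℕ, w (j + 1) = 1 := by
      simp only [hw, pow_succ]
      rw [ENNReal.tsum_mul_right, ENNReal.tsum_geometric]
      rw [ENNReal.one_sub_inv_two, inv_inv]
      exact ENNReal.mul_inv_cancel (by simp) (by simp)
    rw [h1, mul_one]
  refine ⟨(S ∪ B)ᶜ, (hSm.union hBm).compl, ?_, ?_, ?_⟩
  · rw [compl_compl]
    calc ν (S ∪ B) ≤ ν S + ν B := measure_union_le _ _
      _ ≤ 0 + δ := add_le_add hS0.le hB0
      _ = δ := zero_add _
  · intro x hx hx2
    exact hx (Or.inl hx2)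
  · intro ε hε0
    have hN : (0 : ℝ) ≤ (ν' Set.univ).toReal := ENNReal.toReal_nonneg
    obtain ⟨j, hj⟩ : ∃ j : ℕ, w j < ENNReal.ofReal (ε / 4) := by
      have h1 : Tendsto w atTop (𝓝 0) := ENNReal.tendsto_pow_atTop_nhds_zero_of_lt_one (by simp)
      have h2 := h1.eventually (gt_mem_nhds (ENNReal.ofReal_pos.2 (by linarith : 0 < ε / 4)))
      exact h2.exists
    set κ : ℝ := ε / (2 * ((ν' Set.univ).toReal + 1)) with hκ
    have hκ0 : 0 < κ := by positivity
    have huc : UniformContinuous (c j) := CompactSpace.uniformContinuous_of_continuous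
      (c j).continuous
    obtain ⟨η, hη0, hη⟩ := Metric.uniformContinuous_iff.1 huc κ hκ0
    refine ⟨η, hη0, ?_⟩
    intro x hx x' hx' hd
    have hxB : D j x < w j := by
      by_contra hcon
      exact hx (Or.inr (Set.mem_iUnion.2 ⟨j, not_lt.1 hcon⟩))
    have hxB' : D j x' < w j := by
      by_contra hcon
      exact hx' (Or.inr (Set.mem_iUnion.2 ⟨j, not_lt.1 hcon⟩))
    have hFx : ∀ z : X, Measurable (fun y => F (z, y)) := fun z =>
      hFm.comp measurable_prodMk_left
    have hcx : ∀ z : X, Measurable (fun y => c j (z, y)) := fun z =>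
      (c j).continuous.measurable.comp measurable_prodMk_left
    have e1 : ∫ y, |(f x y).toReal - (f x' y).toReal| ∂ν' =
        (∫⁻ y, ‖F (x, y) - F (x', y)‖ₑ ∂ν').toReal := by
      have h := integral_norm_eq_lintegral_enorm (μ := ν') (f := fun y => F (x, y) - F (x', y))
        ((hFx x).sub (hFx x')).aestronglyMeasurable
      rw [← h]
      rfl
    rw [e1]
    have e2 : ∫⁻ y, ‖F (x, y) - F (x', y)‖ₑ ∂ν' ≤ ENNReal.ofReal ε := by
      calc ∫⁻ y, ‖F (x, y) - F (x', y)‖ₑ ∂ν'
          ≤ ∫⁻ y, (‖F (x, y) - c j (x, y)‖ₑ + ‖F (x', y) - c j (x', y)‖ₑ +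
              ENNReal.ofReal κ) ∂ν' := by
            apply lintegral_mono
            intro y
            show ‖F (x, y) - F (x', y)‖ₑ ≤ ‖F (x, y) - c j (x, y)‖ₑ +
              ‖F (x', y) - c j (x', y)‖ₑ + ENNReal.ofReal κ
            have h1 : F (x, y) - F (x', y) = (F (x, y) - c j (x, y)) -
                (F (x', y) - c j (x', y)) + (c j (x, y) - c j (x', y)) := by ring
            rw [h1]
            refine le_trans (enorm_add_le _ _) (add_le_add (enorm_sub_le) ?_)
            rw [← ofReal_norm]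
            apply ENNReal.ofReal_le_ofReal
            have h2 := hη (a := (x, y)) (b := (x', y)) (by
              rw [Prod.dist_eq]
              simp only [dist_self, max_lt_iff]
              exact ⟨hd, hη0⟩)
            rw [dist_eq_norm] at h2
            exact h2.le
        _ = D j x + D j x' + ENNReal.ofReal κ * ν' Set.univ := by
            have hme : Measurable (fun y => ‖F (x', y) - c j (x', y)‖ₑ) :=
              ((hFx x').sub (hcx x')).enorm
            rw [lintegral_add_right _ measurable_const, lintegral_add_right _ hme, lintegral_const]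
        _ ≤ ENNReal.ofReal (ε / 4) + ENNReal.ofReal (ε / 4) + ENNReal.ofReal (ε / 2) := by
            refine add_le_add (add_le_add (hxB.le.trans hj.le) (hxB'.le.trans hj.le)) ?_
            rw [← ENNReal.ofReal_toReal (measure_ne_top ν' Set.univ), ← ENNReal.ofReal_mul hκ0.le]
            apply ENNReal.ofReal_le_ofReal
            rw [hκ, div_mul_eq_mul_div, div_le_div_iff₀ (by positivity) (by norm_num)]
            nlinarith
        _ = ENNReal.ofReal ε := by
            rw [← ENNReal.ofReal_add (by positivity) (by positivity),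
              ← ENNReal.ofReal_add (by positivity) (by positivity)]
            congr 1
            ring
    exact ENNReal.toReal_le_of_le_ofReal hε0.le e2

end Pool.Agent.Y353.HM
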